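import Pool.Agent.K1H17.ST.Stm

/-! Piece CON of project ST (for helper17). -/

set_option autoImplicit false

namespace Pool.Agent.K1H33.ST

open Pool.Agent.K1H17.ST

/-- the linear map of the normalised vectors -/
noncomputable def MM {n : ℕ} (w : Fin n → Fin n → ℝ) : (Fin n → ℝ) →ₗ[ℝ] (Fin n → ℝ) where
  toFun b j := ∑ i, b i * w i j
  map_add' b c := by
    funext j
    simp only [Pi.add_apply, add_mul, Finset.sum_add_distrib]
  map_smul' r b := by
    funext j
    simp only [Pi.smul_apply, smul_eq_mul, RingHom.id_apply, Finset.mul_sum, mul_assoc]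

lemma MM_apply {n : ℕ} (w : Fin n → Fin n → ℝ) (b : Fin n → ℝ) (j : Fin n) :
    MM w b j = ∑ i, b i * w i j := rfl

lemma near {n : ℕ} {B : ℝ} (hB : 0 < B) {w : Fin n → Fin n → ℝ} (h1 : ∀ i, w i i = 1)
    (h2 : ∀ i j, j ≠ i → |w i j| ≤ 1 / B) (b : Fin n → ℝ) (p : Fin n) (hp : ∀ i, |b i| ≤ |b p|)
    (j : Fin n) : |b j - MM w b j| ≤ n / B * |b p| := by
  classical
  have e1 : b j - MM w b j = -∑ i ∈ Finset.univ.erase j, b i * w i j := by
    rw [MM_apply, ← Finset.add_sum_erase Finset.univ _ (Finset.mem_univ j), h1]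
    ring
  rw [e1, abs_neg]
  calc |∑ i ∈ Finset.univ.erase j, b i * w i j| ≤ ∑ i ∈ Finset.univ.erase j, |b i * w i j| :=
        Finset.abs_sum_le_sum_abs _ _
    _ ≤ ∑ _i ∈ Finset.univ.erase j, |b p| * (1 / B) := by
        refine Finset.sum_le_sum fun i hi => ?_
        rw [abs_mul]
        exact mul_le_mul (hp i) (h2 i j (Finset.ne_of_mem_erase hi).symm) (abs_nonneg _)
          (abs_nonneg _)
    _ ≤ ∑ _i : Fin n, |b p| * (1 / B) :=
        Finset.sum_le_sum_of_subset_of_nonneg (Finset.erase_subset _ _)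
          fun _ _ _ => by positivity
    _ = n / B * |b p| := by
        rw [Finset.sum_const, Finset.card_univ, Fintype.card_fin, nsmul_eq_mul]
        ring

theorem t_CON : S_CON := by
  intro n T
  obtain ⟨T', hT'⟩ : ∃ T' : ℝ, T' = |T| + 1 := ⟨_, rfl⟩
  have hT1 : 1 ≤ T' := by
    rw [hT']
    have := abs_nonneg T
    linarith
  have hTT : T ≤ T' := by
    rw [hT']
    have := le_abs_self T
    linarith
  have hn0 : (0 : ℝ) ≤ n := Nat.cast_nonneg n
  refine ⟨2 * n * T' + 1, by positivity, ?_⟩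
  obtain ⟨B, hB⟩ : ∃ B : ℝ, B = 2 * n * T' + 1 := ⟨_, rfl⟩
  rw [← hB]
  have hB0 : 0 < B := by rw [hB]; positivity
  intro v hv hvB y hy
  obtain ⟨w, hw⟩ : ∃ w : Fin n → Fin n → ℝ, w = fun i j => v i j / v i i := ⟨_, rfl⟩
  have hwe : ∀ i j, w i j = v i j / v i i := fun i j => by rw [hw]
  have h1 : ∀ i, w i i = 1 := fun i => by rw [hwe]; exact div_self (hv i i).ne'
  have h2 : ∀ i j, j ≠ i → |w i j| ≤ 1 / B := by
    intro i j hij
    rw [hwe, abs_of_pos (div_pos (hv i j) (hv i i)), div_le_div_iff₀ (hv i i) hB0]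
    have := hvB i j hij
    linarith
  have hnB : n / B ≤ 1 / 2 := by
    rw [div_le_div_iff₀ hB0 (by norm_num)]
    rw [hB]
    nlinarith
  have hnB2 : n / B * (2 * T') ≤ 1 := by
    rw [div_mul_eq_mul_div, div_le_one hB0, hB]
    nlinarith
  have hmax : ∀ (b : Fin n → ℝ) (p : Fin n), (∀ i, |b i| ≤ |b p|) → |b p| ≤ 2 * |MM w b p| := by
    intro b p hp
    have h3 := near hB0 h1 h2 b p hp p
    have h4 : n / B * |b p| ≤ 1 / 2 * |b p| := mul_le_mul_of_nonneg_right hnB (abs_nonneg _)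
    have h5 : |b p| ≤ |b p - MM w b p| + |MM w b p| := by
      have := abs_add_le (b p - MM w b p) (MM w b p)
      rwa [sub_add_cancel] at this
    linarith
  have hinj : Function.Injective (MM w) := by
    rw [← LinearMap.ker_eq_bot, LinearMap.ker_eq_bot']
    intro b hb
    funext j
    obtain ⟨p, hp⟩ : ∃ p : Fin n, ∀ i, |b i| ≤ |b p| := by
      haveI : Nonempty (Fin n) := ⟨j⟩
      exact Finite.exists_max fun i => |b i|
    have h3 := hmax b p hp
    rw [hb] at h3
    simp only [Pi.zero_apply, abs_zero, mul_zero] at h3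
    have h4 := (hp j).trans h3
    exact abs_nonpos_iff.1 h4
  obtain ⟨b, hb⟩ := (LinearMap.injective_iff_surjective.1 hinj) y
  refine ⟨fun i => b i / v i i, fun j => ?_, fun j => ?_⟩
  · apply div_nonneg _ (hv j j).le
    obtain ⟨p, hp⟩ : ∃ p : Fin n, ∀ i, |b i| ≤ |b p| := by
      haveI : Nonempty (Fin n) := ⟨j⟩
      exact Finite.exists_max fun i => |b i|
    have h3 := hmax b p hp
    rw [hb] at h3
    have h4 : |y p| ≤ T' := by
      rw [abs_of_pos (by linarith [(hy p).1])]
      exact (hy p).2.trans hTT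
    have h5 := near hB0 h1 h2 b p hp j
    rw [hb] at h5
    have h6 : n / B * |b p| ≤ n / B * (2 * T') :=
      mul_le_mul_of_nonneg_left (by linarith) (by positivity)
    have h7 := (abs_le.1 h5).1
    have h8 := (hy j).1
    linarith
  · rw [← hb, MM_apply]
    refine Finset.sum_congr rfl fun i _ => ?_
    rw [hwe]
    ring

end Pool.Agent.K1H33.ST
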